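import Pool.Agent.Y278.Z8.Real
import Pool.Agent.Y716.C.Defs

/-!
# Few systems of integral forms are degenerate at a real zero
-/

namespace Pool.Agent.Y407.C4

open Pool.Agent.Y716.Q Pool.Agent.Y716.C Pool.Agent.Y278.Z8

variable {ι : Type*} [Fintype ι]

/-- Bounds for a linear image of a form at two close points. -/
theorem lip (D : MvPolynomial ι ℤ →ₗ[ℤ] MvPolynomial ι ℤ) (d : ℕ) : ∃ K : ℝ, 0 ≤ K ∧
    ∀ (R : ℝ), 0 ≤ R → ∀ f : MvPolynomial ι ℤ, IsF d R f →
    ∀ (ξ η : ι → ℝ) (δ : ℝ), 0 ≤ δ → (∀ i, |ξ i| ≤ 1) → (∀ i, |η i| ≤ 1) →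
      (∀ i, |η i - ξ i| ≤ δ) →
      |MvPolynomial.aeval ξ (D f)| ≤ K * R ∧
      |MvPolynomial.aeval η (D f) - MvPolynomial.aeval ξ (D f)| ≤ K * R * δ := by
  classical
  choose K hK hT using fun g : MvPolynomial ι ℤ => taylor_aux g
  refine ⟨∑ m ∈ mons ι d, K (D (MvPolynomial.monomial m 1)),
    Finset.sum_nonneg (fun m _ => hK _), ?_⟩
  intro R hR f hf ξ η δ hδ hξ hη hd
  have hfs : f = ∑ m ∈ mons ι d, f.coeff m • MvPolynomial.monomial m (1 : ℤ) := by
    conv_lhs => rw [form_eq_sum hf]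
    refine Finset.sum_congr rfl (fun m _ => ?_)
    rw [MvPolynomial.smul_eq_C_mul]
  have e1 : ∀ x : ι → ℝ, MvPolynomial.aeval x (D f) =
      ∑ m ∈ mons ι d, ((f.coeff m : ℤ) : ℝ) * MvPolynomial.aeval x
        (D (MvPolynomial.monomial m (1 : ℤ))) := by
    intro x
    conv_lhs => rw [hfs]
    rw [map_sum, map_sum]
    refine Finset.sum_congr rfl (fun m _ => ?_)
    rw [map_smul, MvPolynomial.smul_eq_C_mul, map_mul, MvPolynomial.aeval_C]
    rfl
  constructor
  · rw [e1]
    refine (Finset.abs_sum_le_sum_abs _ _).trans ?_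
    rw [Finset.sum_mul]
    refine Finset.sum_le_sum (fun m _ => ?_)
    rw [abs_mul]
    have h1 := (hT (D (MvPolynomial.monomial m 1)) ξ η δ hδ hξ hη hd).1
    have h2 := hf.2 m
    calc |((f.coeff m : ℤ) : ℝ)| * _ ≤ R * K (D (MvPolynomial.monomial m 1)) :=
          mul_le_mul h2 h1 (abs_nonneg _) hR
      _ = _ := by ring
  · rw [e1, e1, ← Finset.sum_sub_distrib]
    refine (Finset.abs_sum_le_sum_abs _ _).trans ?_
    rw [Finset.sum_mul, Finset.sum_mul]
    refine Finset.sum_le_sum (fun m _ => ?_)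
    rw [← mul_sub, abs_mul]
    have h1 := (hT (D (MvPolynomial.monomial m 1)) ξ η δ hδ hξ hη hd).2.1
    have h2 := hf.2 m
    calc |((f.coeff m : ℤ) : ℝ)| * _ ≤ R * (K (D (MvPolynomial.monomial m 1)) * δ) :=
          mul_le_mul h2 h1 (abs_nonneg _) hR
      _ = _ := by ring

/-- Bounds for the members of a system and their derivatives. -/
theorem lip_sys {s : ℕ} (e : Fin s → ℕ) : ∃ K : ℝ, 0 ≤ K ∧
    ∀ (R : ℝ), 0 ≤ R → ∀ f ∈ sysZ ι e R,
    ∀ (ξ η : ι → ℝ) (δ : ℝ), 0 ≤ δ → (∀ i, |ξ i| ≤ 1) → (∀ i, |η i| ≤ 1) →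
      (∀ i, |η i - ξ i| ≤ δ) → ∀ j,
      |MvPolynomial.aeval η (f j) - MvPolynomial.aeval ξ (f j)| ≤ K * R * δ ∧ ∀ i,
      |MvPolynomial.aeval ξ (MvPolynomial.pderiv i (f j))| ≤ K * R ∧
      |MvPolynomial.aeval η (MvPolynomial.pderiv i (f j)) -
        MvPolynomial.aeval ξ (MvPolynomial.pderiv i (f j))| ≤ K * R * δ := by
  choose K0 hK0 hT0 using fun j : Fin s => lip (ι := ι) LinearMap.id (e j + 2)
  choose K1 hK1 hT1 using fun (j : Fin s) (i : ι) =>
    lip (ι := ι) ((MvPolynomial.pderiv (R := ℤ) i : Derivation ℤ _ _) : _ →ₗ[ℤ] _) (e j + 2)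
  have h0 : ∀ j, K0 j ≤ ∑ j, (K0 j + ∑ i, K1 j i) := by
    intro j
    refine le_trans ?_ (Finset.single_le_sum (f := fun j => K0 j + ∑ i, K1 j i)
      (fun j _ => add_nonneg (hK0 j) (Finset.sum_nonneg (fun i _ => hK1 j i))) (Finset.mem_univ j))
    have : 0 ≤ ∑ i, K1 j i := Finset.sum_nonneg (fun i _ => hK1 j i)
    linarith
  have h1 : ∀ j i, K1 j i ≤ ∑ j, (K0 j + ∑ i, K1 j i) := by
    intro j i
    refine le_trans ?_ (Finset.single_le_sum (f := fun j => K0 j + ∑ i, K1 j i)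
      (fun j _ => add_nonneg (hK0 j) (Finset.sum_nonneg (fun i _ => hK1 j i))) (Finset.mem_univ j))
    have h2 : K1 j i ≤ ∑ i, K1 j i :=
      Finset.single_le_sum (f := fun i => K1 j i) (fun i _ => hK1 j i) (Finset.mem_univ i)
    have := hK0 j
    linarith
  refine ⟨∑ j, (K0 j + ∑ i, K1 j i),
    Finset.sum_nonneg (fun j _ => add_nonneg (hK0 j) (Finset.sum_nonneg (fun i _ => hK1 j i))), ?_⟩
  intro R hR f hf ξ η δ hδ hξ hη hd j
  have hfj := mem_sysZ.mp hf j
  have a0 := (hT0 j R hR (f j) hfj ξ η δ hδ hξ hη hd).2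
  simp only [LinearMap.id_coe, id_eq] at a0
  refine ⟨a0.trans ?_, fun i => ?_⟩
  · apply mul_le_mul_of_nonneg_right _ hδ
    exact mul_le_mul_of_nonneg_right (h0 j) hR
  · obtain ⟨a1, a2⟩ := hT1 j i R hR (f j) hfj ξ η δ hδ hξ hη hd
    refine ⟨a1.trans (mul_le_mul_of_nonneg_right (h1 j i) hR), a2.trans ?_⟩
    apply mul_le_mul_of_nonneg_right _ hδ
    exact mul_le_mul_of_nonneg_right (h1 j i) hR

open scoped Classical in
/-- For a fixed point, few forms are small there, together with shifted derivatives in the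
directions of `A`. -/
theorem point_count (e : ℕ) (r : ι) (A : Finset ι) (hrA : r ∈ A) (η : ι → ℝ) (hη : η r = 1)
    (u : ι → ℝ) (C₁ : ℝ) (hC : 0 ≤ C₁) (γ R : ℝ) (hγ : 0 < γ) (hγR : 1 ≤ γ * R) :
    (((formsZ ι (e + 2) R).filter (fun f =>
      |MvPolynomial.aeval η f| ≤ C₁ * (γ * R) ∧
      ∀ i ∈ A, i ≠ r →
        |MvPolynomial.aeval η (MvPolynomial.pderiv i f) + u i| ≤ C₁ * (γ * R))).card : ℝ) ≤
    (formsZ ι (e + 2) (2 * R)).card * ((2 * C₁ + 1) * γ) ^ A.card := by
  have hR : 0 < R := by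
    by_contra h
    push Not at h
    have : γ * R ≤ 0 := mul_nonpos_of_nonneg_of_nonpos hγ.le h
    linarith
  set M : ℕ := ⌊2 * C₁ * (γ * R)⌋₊ + 1 with hM
  have hMlt : 2 * C₁ * (γ * R) < M := by
    simp only [hM]
    push_cast
    exact Nat.lt_floor_add_one _
  have hMle : (M : ℝ) ≤ (2 * C₁ + 1) * γ * R := by
    simp only [hM]
    push_cast
    have h1 : (⌊2 * C₁ * (γ * R)⌋₊ : ℝ) ≤ 2 * C₁ * (γ * R) := by
      apply Nat.floor_le
      positivity
    linarith
  have hMpos : 0 < M := Nat.succ_pos _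
  have hMpos' : (0 : ℝ) < M := by exact_mod_cast hMpos
  set T : ℕ := ⌊R / M⌋₊ with hT
  set B : Finset (ι → ℤ) := Fintype.piFinset (fun i => if i ∈ A then
    (Finset.range (T + 1)).image (fun t : ℕ => (M : ℤ) * (t : ℤ)) else {0}) with hB
  have hBcard : B.card = (T + 1) ^ A.card := by
    rw [hB, Fintype.card_piFinset]
    have h1 : ∀ i : ι, (if i ∈ A then (Finset.range (T + 1)).image (fun t : ℕ => (M : ℤ) * (t : ℤ))
        else ({0} : Finset ℤ)).card = if i ∈ A then T + 1 else 1 := by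
      intro i
      split_ifs
      · rw [Finset.card_image_of_injective, Finset.card_range]
        intro t t' h
        simp only at h
        have h2 : (M : ℤ) ≠ 0 := by exact_mod_cast hMpos.ne'
        exact_mod_cast mul_left_cancel₀ h2 h
      · simp
    rw [Finset.prod_congr rfl (fun i _ => h1 i), Finset.prod_ite_mem, Finset.univ_inter,
      Finset.prod_const]
  have hBmem : ∀ c ∈ B, ∀ i, ∃ t : ℕ, t ≤ T ∧ c i = (M : ℤ) * t ∧ (i ∉ A → c i = 0) := by
    intro c hc i
    have h1 := Fintype.mem_piFinset.mp hc i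
    split_ifs at h1 with hi
    · obtain ⟨t, ht, h2⟩ := Finset.mem_image.mp h1
      exact ⟨t, Nat.lt_succ_iff.mp (Finset.mem_range.mp ht), h2.symm, fun h => absurd hi h⟩
    · refine ⟨0, Nat.zero_le _, ?_, fun _ => Finset.mem_singleton.mp h1⟩
      rw [Finset.mem_singleton.mp h1]; simp
  have hmain := inj_count e r R R hR.le (fun f =>
      |MvPolynomial.aeval η f| ≤ C₁ * (γ * R) ∧
      ∀ i ∈ A, i ≠ r →
        |MvPolynomial.aeval η (MvPolynomial.pderiv i f) + u i| ≤ C₁ * (γ * R)) B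
    (by
      intro c hc i
      obtain ⟨t, ht, h1, -⟩ := hBmem c hc i
      rw [h1]
      push_cast
      rw [abs_of_nonneg (by positivity)]
      have h2 : (t : ℝ) ≤ R / M := by
        have h3 : (t : ℝ) ≤ (T : ℝ) := by exact_mod_cast ht
        refine h3.trans ?_
        simp only [hT]
        exact Nat.floor_le (by positivity)
      rw [le_div_iff₀ hMpos'] at h2
      linarith)
    (by
      rintro f g ⟨f1, f2⟩ ⟨g1, g2⟩ c hc c' hc' hpe
      have key : ∀ i, |((c i - c' i : ℤ) : ℝ)| < M → c i = c' i := by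
        intro i hi
        obtain ⟨t, ht, h1, -⟩ := hBmem c hc i
        obtain ⟨t', ht', h1', -⟩ := hBmem c' hc' i
        have h2 : |c i - c' i| < (M : ℤ) := by exact_mod_cast hi
        have h3 : (M : ℤ) ∣ (c i - c' i) := ⟨t - t', by rw [h1, h1']; ring⟩
        have h4 := Int.eq_zero_of_abs_lt_dvd h3 h2
        omega
      have hne : ∀ i, i ≠ r → c i = c' i := by
        intro i hi
        by_cases hiA : i ∈ A
        · apply key
          have h3 := pert_pderiv e r (fun i => c i - c' i) η hη hi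
          rw [← h3, hpe, map_sub, map_sub]
          have h6 := f2 i hiA hi
          have h7 := g2 i hiA hi
          have h8 : MvPolynomial.aeval η (MvPolynomial.pderiv i g) -
              MvPolynomial.aeval η (MvPolynomial.pderiv i f) =
              (MvPolynomial.aeval η (MvPolynomial.pderiv i g) + u i) -
              (MvPolynomial.aeval η (MvPolynomial.pderiv i f) + u i) := by ring
          rw [h8]
          refine lt_of_le_of_lt (abs_sub _ _) ?_
          linarith
        · obtain ⟨_, _, _, h1⟩ := hBmem c hc i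
          obtain ⟨_, _, _, h1'⟩ := hBmem c' hc' i
          rw [h1 hiA, h1' hiA]
      have hr : c r = c' r := by
        apply key
        have h3 := pert_aeval e r (fun i => c i - c' i) η hη
        have h4 : ∑ i, ((c i - c' i : ℤ) : ℝ) * η i = ((c r - c' r : ℤ) : ℝ) := by
          rw [Finset.sum_eq_single r]
          · rw [hη, mul_one]
          · intro i _ hi
            rw [hne i hi, sub_self, Int.cast_zero, zero_mul]
          · intro h; exact absurd (Finset.mem_univ r) h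
        rw [← h4, ← h3, hpe, map_sub]
        refine lt_of_le_of_lt (abs_sub _ _) ?_
        linarith
      funext i
      by_cases hi : i = r
      · subst hi; exact hr
      · exact hne i hi)
  rw [hBcard, show R + R = 2 * R by ring] at hmain
  set X := ((formsZ ι (e + 2) R).filter (fun f =>
      |MvPolynomial.aeval η f| ≤ C₁ * (γ * R) ∧
      ∀ i ∈ A, i ≠ r →
        |MvPolynomial.aeval η (MvPolynomial.pderiv i f) + u i| ≤ C₁ * (γ * R))).card with hX
  have hmain' : (X : ℝ) * ((T : ℝ) + 1) ^ A.card ≤ (formsZ ι (e + 2) (2 * R)).card := by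
    exact_mod_cast hmain
  have hone : 1 ≤ ((T : ℝ) + 1) * ((2 * C₁ + 1) * γ) := by
    have h1 : R / M < (T : ℝ) + 1 := by
      simp only [hT]
      exact Nat.lt_floor_add_one _
    rw [div_lt_iff₀ hMpos'] at h1
    have h5 : (0 : ℝ) ≤ (T : ℝ) + 1 := by positivity
    have h3 : R < ((T : ℝ) + 1) * ((2 * C₁ + 1) * γ * R) :=
      lt_of_lt_of_le h1 (mul_le_mul_of_nonneg_left hMle h5)
    have h6 : 1 * R < ((T : ℝ) + 1) * ((2 * C₁ + 1) * γ) * R := by linarith
    exact (lt_of_mul_lt_mul_right h6 hR.le).le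
  have hprod : 1 ≤ ((T : ℝ) + 1) ^ A.card * ((2 * C₁ + 1) * γ) ^ A.card := by
    rw [← mul_pow]
    exact one_le_pow₀ hone
  have hnn : 0 ≤ ((2 * C₁ + 1) * γ) ^ A.card := by positivity
  calc (X : ℝ) = X * 1 := by ring
    _ ≤ X * (((T : ℝ) + 1) ^ A.card * ((2 * C₁ + 1) * γ) ^ A.card) :=
        mul_le_mul_of_nonneg_left hprod (by positivity)
    _ = (X * ((T : ℝ) + 1) ^ A.card) * ((2 * C₁ + 1) * γ) ^ A.card := by ring
    _ ≤ _ := mul_le_mul_of_nonneg_right hmain' hnn

/-- Nets in the cube. -/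
theorem net {κ : Type*} [Fintype κ] (N : ℕ) (hN : 0 < N) (r : κ) : ∃ G : Finset (κ → ℝ),
    (G.card : ℝ) ≤ (2 * (N : ℝ) + 1) ^ (Fintype.card κ - 1) ∧
    (∀ η ∈ G, η r = 1 ∧ ∀ i, |η i| ≤ 1) ∧
    ∀ v : κ → ℝ, v r = 1 → (∀ i, |v i| ≤ 1) → ∃ η ∈ G, ∀ i, |η i - v i| ≤ 1 / N := by
  classical
  have hN0 : (0 : ℝ) < N := by exact_mod_cast hN
  refine ⟨(Fintype.piFinset (fun i => if i = r then {(N : ℤ)} else
    Finset.Icc (-(N : ℤ)) N)).image (fun y i => (y i : ℝ) / N), ?_, ?_, ?_⟩
  · have h1 : (Fintype.piFinset (fun i : κ => if i = r then {(N : ℤ)} else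
        Finset.Icc (-(N : ℤ)) N)).card = (2 * N + 1) ^ (Fintype.card κ - 1) := by
      rw [Fintype.card_piFinset, ← Finset.mul_prod_erase _ _ (Finset.mem_univ r)]
      rw [if_pos rfl, Finset.card_singleton, one_mul]
      have h2 : ∀ i ∈ Finset.univ.erase r, (if i = r then {(N : ℤ)} else
        Finset.Icc (-(N : ℤ)) N).card = 2 * N + 1 := by
        intro i hi
        rw [if_neg (Finset.ne_of_mem_erase hi), Int.card_Icc]
        omega
      rw [Finset.prod_congr rfl h2, Finset.prod_const,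
        Finset.card_erase_of_mem (Finset.mem_univ r), Finset.card_univ]
    have h3 := (Finset.card_image_le (s := (Fintype.piFinset (fun i : κ => if i = r then
        {(N : ℤ)} else Finset.Icc (-(N : ℤ)) N))) (f := fun y i => (y i : ℝ) / N)).trans h1.le
    exact_mod_cast h3
  · intro η hη
    obtain ⟨y, hy, rfl⟩ := Finset.mem_image.mp hη
    have h1 := fun i => Fintype.mem_piFinset.mp hy i
    refine ⟨?_, fun i => ?_⟩
    · have h2 := h1 r
      rw [if_pos rfl, Finset.mem_singleton] at h2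
      simp only [h2]
      push_cast
      exact div_self hN0.ne'
    · have h2 : -(N : ℤ) ≤ y i ∧ y i ≤ N := by
        have h3 := h1 i
        split_ifs at h3
        · rw [Finset.mem_singleton] at h3
          constructor <;> omega
        · exact Finset.mem_Icc.mp h3
      simp only
      rw [abs_div, abs_of_pos hN0, div_le_one hN0, abs_le]
      constructor
      · exact_mod_cast h2.1
      · exact_mod_cast h2.2
  · intro v hvr hv
    have hlo : ∀ i, -(N : ℝ) ≤ N * v i := by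
      intro i
      have := (abs_le.mp (hv i)).1
      nlinarith
    have hhi : ∀ i, N * v i ≤ N := by
      intro i
      have := (abs_le.mp (hv i)).2
      nlinarith
    refine ⟨fun i => ((⌊N * v i⌋ : ℤ) : ℝ) / N, Finset.mem_image.mpr
      ⟨fun i => ⌊N * v i⌋, ?_, rfl⟩, fun i => ?_⟩
    · rw [Fintype.mem_piFinset]
      intro i
      split_ifs with hir
      · subst hir
        rw [Finset.mem_singleton, hvr, mul_one]
        simp
      · rw [Finset.mem_Icc, Int.le_floor]
        push_cast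
        refine ⟨hlo i, ?_⟩
        have h3 := (Int.floor_le (N * v i)).trans (hhi i)
        exact_mod_cast h3
    · have h3 : ((⌊N * v i⌋ : ℤ) : ℝ) / N - v i = (((⌊N * v i⌋ : ℤ) : ℝ) - N * v i) / N := by
        field_simp
      rw [h3, abs_div, abs_of_pos hN0]
      apply div_le_div_of_nonneg_right _ hN0.le
      rw [abs_le]
      constructor
      · have := Int.lt_floor_add_one (N * v i)
        linarith
      · have := Int.floor_le (N * v i)
        linarith

open scoped Classical in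
/-- For a fixed point of the nets, few systems are degenerate there. -/
theorem sys_point {s : ℕ} (e : Fin s → ℕ) (r : ι) (η : ι → ℝ) (hη : η r = 1) (j₀ : Fin s)
    (l : Fin s → ℝ) (hl : l j₀ = 1) (C₁ : ℝ) (hC : 0 ≤ C₁) (γ R : ℝ) (hγ : 0 < γ)
    (hγR : 1 ≤ γ * R) :
    (((sysZ ι e R).filter (fun f => (∀ j, |MvPolynomial.aeval η (f j)| ≤ C₁ * (γ * R)) ∧
      ∀ i, |∑ j, l j * MvPolynomial.aeval η (MvPolynomial.pderiv i (f j))| ≤
        C₁ * (γ * R))).card : ℝ) ≤
    (sysZ ι e (2 * R)).card *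
      (((2 * C₁ + 1) * γ) ^ (s - 1) * ((2 * C₁ + 1) * γ) ^ Fintype.card ι) := by
  set S := (sysZ ι e R).filter (fun f => (∀ j, |MvPolynomial.aeval η (f j)| ≤ C₁ * (γ * R)) ∧
      ∀ i, |∑ j, l j * MvPolynomial.aeval η (MvPolynomial.pderiv i (f j))| ≤
        C₁ * (γ * R)) with hS
  set A : Fin s → Finset (MvPolynomial ι ℤ) := fun j => (formsZ ι (e j + 2) R).filter (fun g =>
    |MvPolynomial.aeval η g| ≤ C₁ * (γ * R)) with hA
  set T : Finset (Fin s → MvPolynomial ι ℤ) :=
    Fintype.piFinset (fun j => if j = j₀ then {0} else A j) with hT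
  have hAc : ∀ j, ((A j).card : ℝ) ≤ (formsZ ι (e j + 2) (2 * R)).card * ((2 * C₁ + 1) * γ) := by
    intro j
    have h1 := point_count (e j) r {r} (Finset.mem_singleton_self r) η hη (fun _ => 0) C₁ hC γ R
      hγ hγR
    rw [Finset.card_singleton, pow_one] at h1
    refine le_trans ?_ h1
    rw [Nat.cast_le]
    apply Finset.card_le_card
    intro g hg
    obtain ⟨h2, h3⟩ := Finset.mem_filter.mp hg
    refine Finset.mem_filter.mpr ⟨h2, h3, fun i hi hir => ?_⟩
    exact absurd (Finset.mem_singleton.mp hi) hir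
  have hTc : (T.card : ℝ) ≤ (∏ j ∈ Finset.univ.erase j₀, ((formsZ ι (e j + 2) (2 * R)).card : ℝ)) *
      ((2 * C₁ + 1) * γ) ^ (s - 1) := by
    rw [hT, Fintype.card_piFinset, ← Finset.mul_prod_erase _ _ (Finset.mem_univ j₀), if_pos rfl,
      Finset.card_singleton, one_mul]
    have h1 : ((2 * C₁ + 1) * γ) ^ (s - 1) = ∏ j ∈ Finset.univ.erase j₀, ((2 * C₁ + 1) * γ) := by
      rw [Finset.prod_const, Finset.card_erase_of_mem (Finset.mem_univ j₀), Finset.card_univ,
        Fintype.card_fin]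
    rw [h1, ← Finset.prod_mul_distrib, Nat.cast_prod]
    apply Finset.prod_le_prod
    · intro j _; positivity
    · intro j hj
      rw [if_neg (Finset.ne_of_mem_erase hj)]
      exact hAc j
  have hmaps : Set.MapsTo (fun f : Fin s → MvPolynomial ι ℤ => Function.update f j₀ 0) S T := by
    intro f hf
    obtain ⟨h1, h2, -⟩ := Finset.mem_filter.mp (Finset.mem_coe.mp hf)
    rw [Finset.mem_coe, hT, Fintype.mem_piFinset]
    intro j
    split_ifs with hj
    · subst hj; simp
    · simp only [Function.update_of_ne hj]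
      exact Finset.mem_filter.mpr ⟨mem_formsZ.mpr (mem_sysZ.mp h1 j), h2 j⟩
  have hfib : ∀ b ∈ T, (((S.filter (fun f => Function.update f j₀ 0 = b)).card : ℕ) : ℝ) ≤
      (formsZ ι (e j₀ + 2) (2 * R)).card * ((2 * C₁ + 1) * γ) ^ Fintype.card ι := by
    intro b hb
    have hb0 : b j₀ = 0 := by
      have h1 := Fintype.mem_piFinset.mp hb j₀
      rw [if_pos rfl] at h1
      exact Finset.mem_singleton.mp h1
    have h1 := point_count (e j₀) r Finset.univ (Finset.mem_univ r) η hη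
      (fun i => ∑ j, l j * MvPolynomial.aeval η (MvPolynomial.pderiv i (b j))) C₁ hC γ R hγ hγR
    rw [Finset.card_univ] at h1
    refine le_trans ?_ h1
    rw [Nat.cast_le]
    apply Finset.card_le_card_of_injOn (fun f => f j₀)
    · intro f hf
      obtain ⟨h2, h3⟩ := Finset.mem_filter.mp (Finset.mem_coe.mp hf)
      obtain ⟨h4, h5, h6⟩ := Finset.mem_filter.mp h2
      rw [Finset.mem_coe]
      refine Finset.mem_filter.mpr ⟨mem_formsZ.mpr (mem_sysZ.mp h4 j₀), h5 j₀, fun i _ _ => ?_⟩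
      have h7 : ∑ j, l j * MvPolynomial.aeval η (MvPolynomial.pderiv i (f j)) =
          MvPolynomial.aeval η (MvPolynomial.pderiv i (f j₀)) +
          ∑ j, l j * MvPolynomial.aeval η (MvPolynomial.pderiv i (b j)) := by
        rw [← Finset.add_sum_erase _ _ (Finset.mem_univ j₀), hl, one_mul]
        congr 1
        rw [← Finset.add_sum_erase _ _ (Finset.mem_univ j₀), hb0]
        simp only [map_zero, mul_zero, zero_add]
        refine Finset.sum_congr rfl (fun j hj => ?_)
        rw [← h3, Function.update_of_ne (Finset.ne_of_mem_erase hj)]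
      rw [← h7]
      exact h6 i
    · intro f hf g hg hfg
      have h3 := (Finset.mem_filter.mp (Finset.mem_coe.mp hf)).2
      have h4 := (Finset.mem_filter.mp (Finset.mem_coe.mp hg)).2
      funext j
      by_cases hj : j = j₀
      · subst hj; exact hfg
      · have h5 := congrFun (h3.trans h4.symm) j
        rwa [Function.update_of_ne hj, Function.update_of_ne hj] at h5
  have hsum : (S.card : ℝ) = ∑ b ∈ T, ((S.filter (fun f => Function.update f j₀ 0 = b)).card : ℝ) := by
    rw [Finset.card_eq_sum_card_fiberwise hmaps]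
    push_cast
    rfl
  have hD0 : 0 ≤ (2 * C₁ + 1) * γ := by positivity
  rw [hsum, card_sysZ]
  calc ∑ b ∈ T, ((S.filter (fun f => Function.update f j₀ 0 = b)).card : ℝ)
      ≤ ∑ b ∈ T, ((formsZ ι (e j₀ + 2) (2 * R)).card : ℝ) *
        ((2 * C₁ + 1) * γ) ^ Fintype.card ι := Finset.sum_le_sum hfib
    _ = T.card * (((formsZ ι (e j₀ + 2) (2 * R)).card : ℝ) *
        ((2 * C₁ + 1) * γ) ^ Fintype.card ι) := by rw [Finset.sum_const, nsmul_eq_mul]
    _ ≤ ((∏ j ∈ Finset.univ.erase j₀, ((formsZ ι (e j + 2) (2 * R)).card : ℝ)) *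
      ((2 * C₁ + 1) * γ) ^ (s - 1)) * (((formsZ ι (e j₀ + 2) (2 * R)).card : ℝ) *
        ((2 * C₁ + 1) * γ) ^ Fintype.card ι) := by
        apply mul_le_mul_of_nonneg_right hTc
        positivity
    _ = _ := by
        rw [Nat.cast_prod, ← Finset.mul_prod_erase _ _ (Finset.mem_univ j₀)]
        ring

open scoped Classical in
/-- Few systems are degenerate at a real zero. -/
theorem bad_real (ι : Type*) [Fintype ι] {s : ℕ} (e : Fin s → ℕ) :
    Pool.Agent.Y716.C.BadCountReal ι e := by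
  obtain ⟨K, hK, hL⟩ := lip_sys (ι := ι) e
  set k := Fintype.card ι with hk
  set C₁ : ℝ := 1 + 2 * s * K + K with hC₁
  have hC₁0 : 0 ≤ C₁ := by positivity
  set D : ℝ := 2 * C₁ + 1 with hD
  have hD0 : 0 < D := by positivity
  refine ⟨k * s * ((5 * D) ^ (k - 1) * (5 * D) ^ (s - 1) * D) + 1, by positivity, ?_⟩
  intro γ R hγ hγ1 hγR
  have hR : 0 < R := by
    by_contra h
    push Not at h
    have : γ * R ≤ 0 := mul_nonpos_of_nonneg_of_nonpos hγ.le h
    linarith
  set N : ℕ := ⌈1 / γ⌉₊ with hN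
  have hN1 : 1 / γ ≤ N := Nat.le_ceil _
  have hN2 : (N : ℝ) < 1 / γ + 1 := Nat.ceil_lt_add_one (by positivity)
  have hginv : 1 ≤ 1 / γ := by rw [le_div_iff₀ hγ]; linarith
  have hN0 : (0 : ℝ) < N := by linarith
  have hNn : 0 < N := by exact_mod_cast hN0
  have hNγ : 1 / (N : ℝ) ≤ γ := by
    rw [div_le_iff₀ hN0]
    rw [div_le_iff₀ hγ] at hN1
    linarith
  choose G hG1 hG2 hG3 using fun r : ι => net N hNn r
  choose G' hG1' hG2' hG3' using fun j : Fin s => net N hNn j
  set P : (ι → ℝ) → (Fin s → ℝ) → Finset (Fin s → MvPolynomial ι ℤ) := fun η l =>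
    (sysZ ι e R).filter (fun f => (∀ j, |MvPolynomial.aeval η (f j)| ≤ C₁ * (γ * R)) ∧
      ∀ i, |∑ j, l j * MvPolynomial.aeval η (MvPolynomial.pderiv i (f j))| ≤
        C₁ * (γ * R)) with hP
  have hcov : (sysZ ι e R).filter (fun f => BadRS γ R f) ⊆
      (Finset.univ : Finset ι).biUnion (fun r => (Finset.univ : Finset (Fin s)).biUnion (fun j₀ =>
        (G r ×ˢ G' j₀).biUnion (fun y => P y.1 y.2))) := by
    intro f hf
    obtain ⟨hf1, r, ξ, j₀, l, hξr, hξ, hl0, hl, h1, h2⟩ := Finset.mem_filter.mp hf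
    rw [Finset.mem_biUnion]
    refine ⟨r, Finset.mem_univ _, ?_⟩
    rw [Finset.mem_biUnion]
    refine ⟨j₀, Finset.mem_univ _, ?_⟩
    rw [Finset.mem_biUnion]
    obtain ⟨η, hη, hηd⟩ := hG3 r ξ hξr hξ
    obtain ⟨m, hm, hmd⟩ := hG3' j₀ l hl0 hl
    refine ⟨(η, m), Finset.mem_product.mpr ⟨hη, hm⟩, ?_⟩
    have hηd' : ∀ i, |η i - ξ i| ≤ γ := fun i => (hηd i).trans hNγ
    have hmd' : ∀ i, |m i - l i| ≤ γ := fun i => (hmd i).trans hNγ
    have hLf := hL R hR.le f hf1 ξ η γ hγ.le hξ (hG2 r η hη).2 hηd'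
    have hRγ : 0 ≤ γ * R := by positivity
    have hKs : 0 ≤ 2 * s * K * (γ * R) := by positivity
    have hKK : 0 ≤ K * (γ * R) := by positivity
    simp only [hP]
    refine Finset.mem_filter.mpr ⟨hf1, fun j => ?_, fun i => ?_⟩
    · have a1 := (hLf j).1
      have a2 := h1 j
      have a3 : MvPolynomial.aeval η (f j) = MvPolynomial.aeval ξ (f j) +
        (MvPolynomial.aeval η (f j) - MvPolynomial.aeval ξ (f j)) := by ring
      rw [a3, hC₁]
      refine (abs_add_le _ _).trans ?_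
      nlinarith
    · have a1 : ∑ j, m j * MvPolynomial.aeval η (MvPolynomial.pderiv i (f j)) =
          (∑ j, l j * MvPolynomial.aeval ξ (MvPolynomial.pderiv i (f j))) +
          ∑ j, ((m j) * (MvPolynomial.aeval η (MvPolynomial.pderiv i (f j)) -
            MvPolynomial.aeval ξ (MvPolynomial.pderiv i (f j))) +
            (m j - l j) * MvPolynomial.aeval ξ (MvPolynomial.pderiv i (f j))) := by
        rw [← Finset.sum_add_distrib]
        refine Finset.sum_congr rfl (fun j _ => ?_)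
        ring
      have a2 : |∑ j, ((m j) * (MvPolynomial.aeval η (MvPolynomial.pderiv i (f j)) -
            MvPolynomial.aeval ξ (MvPolynomial.pderiv i (f j))) +
            (m j - l j) * MvPolynomial.aeval ξ (MvPolynomial.pderiv i (f j)))| ≤
            ∑ _j : Fin s, 2 * (K * (γ * R)) := by
        refine (Finset.abs_sum_le_sum_abs _ _).trans (Finset.sum_le_sum (fun j _ => ?_))
        refine (abs_add_le _ _).trans ?_
        rw [abs_mul, abs_mul]
        have b1 := ((hLf j).2 i).1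
        have b2 := ((hLf j).2 i).2
        have b3 := (hG2' j₀ m hm).2 j
        have b4 := hmd' j
        have c1 : |m j| * |MvPolynomial.aeval η (MvPolynomial.pderiv i (f j)) -
            MvPolynomial.aeval ξ (MvPolynomial.pderiv i (f j))| ≤ 1 * (K * R * γ) :=
          mul_le_mul b3 b2 (abs_nonneg _) zero_le_one
        have c2 : |m j - l j| * |MvPolynomial.aeval ξ (MvPolynomial.pderiv i (f j))| ≤
            γ * (K * R) := mul_le_mul b4 b1 (abs_nonneg _) hγ.le
        linarith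
      rw [Finset.sum_const, Finset.card_univ, Fintype.card_fin, nsmul_eq_mul] at a2
      rw [a1]
      refine (abs_add_le _ _).trans ?_
      have a3 := h2 i
      rw [hC₁]
      nlinarith
  have hpt : ∀ r j₀, ∀ y ∈ G r ×ˢ G' j₀, ((P y.1 y.2).card : ℝ) ≤ (sysZ ι e (2 * R)).card *
      ((D * γ) ^ (s - 1) * (D * γ) ^ k) := by
    intro r j₀ y hy
    obtain ⟨h1, h2⟩ := Finset.mem_product.mp hy
    exact sys_point e r y.1 (hG2 r _ h1).1 j₀ y.2 (hG2' j₀ _ h2).1 C₁ hC₁0 γ R hγ hγR
  have h5D : (2 * (N : ℝ) + 1) * (D * γ) ≤ 5 * D := by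
    have h6 : (2 * N + 1) * γ ≤ 5 := by
      have h7 : (N : ℝ) * γ < (1 / γ + 1) * γ := mul_lt_mul_of_pos_right hN2 hγ
      have h8 : (1 / γ + 1) * γ = 1 + γ := by field_simp
      rw [h8] at h7
      linarith
    calc (2 * (N : ℝ) + 1) * (D * γ) = D * ((2 * N + 1) * γ) := by ring
      _ ≤ D * 5 := mul_le_mul_of_nonneg_left h6 hD0.le
      _ = 5 * D := by ring
  set F : ℝ := ((sysZ ι e (2 * R)).card : ℝ) with hF
  have hF0 : 0 ≤ F := by positivity
  have hDγ : 0 < D * γ := by positivity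
  have hterm : ∀ (r : ι) (j₀ : Fin s), ∑ y ∈ G r ×ˢ G' j₀, ((P y.1 y.2).card : ℝ) ≤
      ((5 * D) ^ (k - 1) * (5 * D) ^ (s - 1) * D) * γ * F := by
    intro r j₀
    have hk1 : 1 ≤ k := Fintype.card_pos_iff.mpr ⟨r⟩
    calc ∑ y ∈ G r ×ˢ G' j₀, ((P y.1 y.2).card : ℝ) ≤
        (G r ×ˢ G' j₀).card • (F * ((D * γ) ^ (s - 1) * (D * γ) ^ k)) :=
          Finset.sum_le_card_nsmul _ _ _ (hpt r j₀)
      _ = ((G r).card : ℝ) * ((G' j₀).card : ℝ) * (F * ((D * γ) ^ (s - 1) * (D * γ) ^ k)) := by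
          rw [nsmul_eq_mul, Finset.card_product]; push_cast; ring
      _ ≤ (2 * (N : ℝ) + 1) ^ (k - 1) * (2 * (N : ℝ) + 1) ^ (s - 1) *
          (F * ((D * γ) ^ (s - 1) * (D * γ) ^ k)) := by
          apply mul_le_mul_of_nonneg_right _ (by positivity)
          have h1 := hG1 r
          have h2 := hG1' j₀
          rw [Fintype.card_fin] at h2
          exact mul_le_mul h1 h2 (by positivity) (by positivity)
      _ = F * ((((2 * (N : ℝ) + 1) * (D * γ)) ^ (k - 1)) *
          (((2 * (N : ℝ) + 1) * (D * γ)) ^ (s - 1)) * (D * γ)) := by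
          have h3 : (D * γ) ^ k = (D * γ) ^ (k - 1) * (D * γ) := by
            rw [← pow_succ, Nat.sub_add_cancel hk1]
          rw [h3, mul_pow (2 * (N : ℝ) + 1), mul_pow (2 * (N : ℝ) + 1)]
          ring
      _ ≤ F * ((5 * D) ^ (k - 1) * (5 * D) ^ (s - 1) * (D * γ)) := by
          apply mul_le_mul_of_nonneg_left _ hF0
          apply mul_le_mul_of_nonneg_right _ hDγ.le
          have h0 : 0 ≤ (2 * (N : ℝ) + 1) * (D * γ) := by positivity
          exact mul_le_mul (pow_le_pow_left₀ h0 h5D _) (pow_le_pow_left₀ h0 h5D _)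
            (by positivity) (by positivity)
      _ = _ := by ring
  calc (((sysZ ι e R).filter (fun f => BadRS γ R f)).card : ℝ) ≤
      ((∑ r : ι, ∑ j₀ : Fin s, ∑ y ∈ G r ×ˢ G' j₀, (P y.1 y.2).card : ℕ) : ℝ) := by
        have := (Finset.card_le_card hcov).trans (Finset.card_biUnion_le.trans
          (Finset.sum_le_sum (fun r _ => Finset.card_biUnion_le.trans
            (Finset.sum_le_sum (fun j₀ _ => Finset.card_biUnion_le)))))
        exact_mod_cast this
    _ = ∑ r : ι, ∑ j₀ : Fin s, ∑ y ∈ G r ×ˢ G' j₀, ((P y.1 y.2).card : ℝ) := by push_cast; rfl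
    _ ≤ ∑ _r : ι, ∑ _j : Fin s, ((5 * D) ^ (k - 1) * (5 * D) ^ (s - 1) * D) * γ * F :=
        Finset.sum_le_sum (fun r _ => Finset.sum_le_sum (fun j₀ _ => hterm r j₀))
    _ = (k * s * ((5 * D) ^ (k - 1) * (5 * D) ^ (s - 1) * D)) * γ * F := by
        rw [Finset.sum_const, Finset.sum_const, Finset.card_univ, Finset.card_univ,
          Fintype.card_fin, nsmul_eq_mul, nsmul_eq_mul]
        ring
    _ ≤ _ := by
        apply mul_le_mul_of_nonneg_right _ hF0
        apply mul_le_mul_of_nonneg_right _ hγ.le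
        linarith

end Pool.Agent.Y407.C4
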